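import Mathlib

open MeasureTheory Complex Set Filter Topology
open scoped ENNReal NNReal ComplexConjugate

namespace Pool.Agent.Results.MP_5b3867_an.RadialWeights

/-- The open unit disc. -/
abbrev disc : Set ℂ := Metric.ball (0 : ℂ) 1

/-- Normalised area measure on the disc. -/
noncomputable def dA : Measure ℂ := (volume disc)⁻¹ • volume.restrict disc

lemma vol_disc : volume disc = (NNReal.pi : ℝ≥0∞) := by
  simp [disc, Complex.volume_ball]

lemma vol_disc_ne_zero : volume disc ≠ 0 := by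
  rw [vol_disc]; simp [NNReal.pi_ne_zero]

lemma vol_disc_ne_top : volume disc ≠ ⊤ := by
  rw [vol_disc]; simp

instance : IsProbabilityMeasure dA := by
  constructor
  simp only [dA, Measure.smul_apply, Measure.restrict_apply MeasurableSet.univ, univ_inter,
    smul_eq_mul]
  exact ENNReal.inv_mul_cancel vol_disc_ne_zero vol_disc_ne_top

lemma ae_dA_iff {p : ℂ → Prop} : (∀ᵐ z ∂dA, p z) ↔ ∀ᵐ z ∂(volume.restrict disc), p z := by
  unfold dA
  rw [Measure.ae_ennreal_smul_measure_iff]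
  exact ENNReal.inv_ne_zero.2 vol_disc_ne_top

lemma ae_disc : ∀ᵐ z ∂dA, z ∈ disc := by
  rw [ae_dA_iff]
  exact ae_restrict_mem Metric.isOpen_ball.measurableSet

lemma dA_rotate (u : Circle) : MeasurePreserving (fun z : ℂ => (u : ℂ) * z) dA dA := by
  have h0 : (rotation u : ℂ → ℂ) = fun z : ℂ => (u : ℂ) * z := by
    funext z; exact rotation_apply u z
  have h1 : MeasurePreserving (fun z : ℂ => (u : ℂ) * z) volume volume := by
    rw [← h0]
    exact (rotation u).measurePreserving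
  have h2 := h1.restrict_preimage (s := disc) Metric.isOpen_ball.measurableSet
  have h3 : (fun z : ℂ => (u : ℂ) * z) ⁻¹' disc = disc := by
    ext z; simp [disc, Circle.norm_coe]
  rw [h3] at h2
  exact h2.smul_measure _

lemma dA_rotate_integral (u : Circle) {E : Type*} [NormedAddCommGroup E] [NormedSpace ℝ E]
    (F : ℂ → E) : ∫ z, F ((u : ℂ) * z) ∂dA = ∫ z, F z ∂dA := by
  refine (dA_rotate u).integral_comp ?_ F
  have h0 : (rotation u : ℂ → ℂ) = fun z : ℂ => (u : ℂ) * z := by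
    funext z; exact rotation_apply u z
  rw [← h0]
  exact (rotation u).toHomeomorph.measurableEmbedding

/-- orthogonality -/
lemma orth {g : ℂ → ℝ} (hg : ∀ (u : Circle) (z : ℂ), g ((u : ℂ) * z) = g z) {n m : ℕ} (h : n ≠ m) :
    ∫ z, z ^ n * (conj z) ^ m * (g z : ℂ) ∂dA = 0 := by
  set t : ℝ := Real.pi / ((n : ℝ) - m) with ht
  have hnm : ((n : ℝ) - m) ≠ 0 := by
    rw [sub_ne_zero]; exact_mod_cast h
  set u : Circle := Circle.exp t with hu
  have key : (u : ℂ) ^ n * (conj (u : ℂ)) ^ m = -1 := by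
    rw [hu, Circle.coe_exp, ← Complex.exp_conj, ← Complex.exp_nat_mul, ← Complex.exp_nat_mul,
      ← Complex.exp_add]
    have : (n : ℂ) * (t * I) + m * conj ((t : ℂ) * I) = Real.pi * I := by
      simp only [map_mul, conj_ofReal, conj_I]
      have : (t : ℂ) * ((n : ℂ) - m) = Real.pi := by
        rw [ht]; push_cast
        have : ((n : ℂ) - m) ≠ 0 := by exact_mod_cast hnm
        field_simp
      linear_combination I * this
    rw [this, Complex.exp_pi_mul_I]
  have h1 := dA_rotate_integral u (fun z => z ^ n * (conj z) ^ m * (g z : ℂ))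
  have h2 : ∀ z : ℂ, ((u : ℂ) * z) ^ n * (conj ((u : ℂ) * z)) ^ m * (g ((u : ℂ) * z) : ℂ)
      = (-1) * (z ^ n * (conj z) ^ m * (g z : ℂ)) := by
    intro z
    rw [hg, map_mul, mul_pow, mul_pow, ← key]; ring
  simp only [h2] at h1
  rw [integral_const_mul] at h1
  have h3 : (2 : ℂ) * ∫ z, z ^ n * (conj z) ^ m * (g z : ℂ) ∂dA = 0 := by
    linear_combination -h1
  simpa using h3

lemma norm_le_one_of_mem {z : ℂ} (hz : z ∈ disc) : ‖z‖ ≤ 1 := by
  have : ‖z‖ < 1 := by simpa [disc] using hz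
  exact this.le

lemma integrable_mono_mul {g : ℂ → ℝ} (hint : Integrable g dA) {h : ℂ → ℂ} {K : ℝ}
    (hm : AEStronglyMeasurable h dA) (hb : ∀ z ∈ disc, ‖h z‖ ≤ K) :
    Integrable (fun z => h z * (g z : ℂ)) dA := by
  have h1 : Integrable (fun z => (g z : ℂ)) dA := hint.ofReal
  refine Integrable.mono (h1.const_mul (K : ℂ)) (hm.mul h1.aestronglyMeasurable) ?_
  filter_upwards [ae_disc] with z hz
  rw [norm_mul, norm_mul]
  have := hb z hz
  have h2 : ‖h z‖ ≤ ‖(K : ℂ)‖ := by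
    rw [Complex.norm_real]; exact this.trans (le_abs_self K)
  gcongr

lemma integrable_mono_mul_real {g : ℂ → ℝ} (hint : Integrable g dA) {h : ℂ → ℝ} {K : ℝ}
    (hm : AEStronglyMeasurable h dA) (hb : ∀ z ∈ disc, ‖h z‖ ≤ K) :
    Integrable (fun z => h z * g z) dA := by
  refine Integrable.mono (hint.const_mul K) (hm.mul hint.aestronglyMeasurable) ?_
  filter_upwards [ae_disc] with z hz
  rw [norm_mul, norm_mul]
  have := hb z hz
  have h2 : ‖h z‖ ≤ ‖K‖ := this.trans (le_abs_self K)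
  gcongr

lemma norm_poly_le (b : ℕ → ℂ) (N : ℕ) {z : ℂ} (hz : z ∈ disc) :
    ‖∑ n ∈ Finset.range N, b n * z ^ n‖ ≤ ∑ n ∈ Finset.range N, ‖b n‖ := by
  refine (norm_sum_le _ _).trans (Finset.sum_le_sum fun n _ => ?_)
  rw [norm_mul, norm_pow]
  have := pow_le_one₀ (n := n) (norm_nonneg z) (norm_le_one_of_mem hz)
  calc ‖b n‖ * ‖z‖ ^ n ≤ ‖b n‖ * 1 := by gcongr
    _ = ‖b n‖ := mul_one _

lemma integrable_mono_monomial {g : ℂ → ℝ} (hint : Integrable g dA) (n m : ℕ) :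
    Integrable (fun z => z ^ n * (conj z) ^ m * (g z : ℂ)) dA := by
  refine integrable_mono_mul hint (K := 1) ?_ ?_
  · exact Continuous.aestronglyMeasurable (by fun_prop)
  · intro z hz
    rw [norm_mul, norm_pow, norm_pow, RCLike.norm_conj]
    exact mul_le_one₀ (pow_le_one₀ (norm_nonneg z) (norm_le_one_of_mem hz)) (by positivity)
      (pow_le_one₀ (norm_nonneg z) (norm_le_one_of_mem hz))

/-- Parseval for polynomials -/
lemma parseval {g : ℂ → ℝ} (hg : ∀ (u : Circle) (z : ℂ), g ((u : ℂ) * z) = g z)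
    (hint : Integrable g dA) (b : ℕ → ℂ) (N : ℕ) :
    ∫ z, ‖∑ n ∈ Finset.range N, b n * z ^ n‖ ^ 2 * g z ∂dA
      = ∑ n ∈ Finset.range N, ‖b n‖ ^ 2 * ∫ z, ‖z‖ ^ (2 * n) * g z ∂dA := by
  have h1 : ∀ z : ℂ, ((‖∑ n ∈ Finset.range N, b n * z ^ n‖ ^ 2 * g z : ℝ) : ℂ)
      = ∑ n ∈ Finset.range N, ∑ m ∈ Finset.range N,
        (b n * conj (b m)) * (z ^ n * (conj z) ^ m * (g z : ℂ)) := by
    intro z
    push_cast
    rw [← Complex.mul_conj', map_sum, Finset.sum_mul_sum, Finset.sum_mul]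
    refine Finset.sum_congr rfl fun n _ => ?_
    rw [Finset.sum_mul]
    refine Finset.sum_congr rfl fun m _ => ?_
    rw [map_mul, map_pow]; ring
  have h2 : ((∫ z, ‖∑ n ∈ Finset.range N, b n * z ^ n‖ ^ 2 * g z ∂dA : ℝ) : ℂ)
      = ((∑ n ∈ Finset.range N, ‖b n‖ ^ 2 * ∫ z, ‖z‖ ^ (2 * n) * g z ∂dA : ℝ) : ℂ) := by
    rw [← integral_complex_ofReal]
    simp only [h1]
    rw [integral_finsetSum]
    · push_cast
      refine Finset.sum_congr rfl fun n hn => ?_
      rw [integral_finsetSum]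
      · rw [Finset.sum_eq_single n]
        · rw [integral_const_mul, Complex.mul_conj', ← integral_complex_ofReal]
          congr 1
          refine integral_congr_ae (Eventually.of_forall fun z => ?_)
          simp only
          push_cast
          rw [← mul_pow, Complex.mul_conj', ← pow_mul]
        · intro m _ hm
          rw [integral_const_mul, orth hg (Ne.symm hm), mul_zero]
        · intro h; exact absurd hn h
      · intro m _
        exact (integrable_mono_monomial hint n m).const_mul _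
    · intro n _
      exact integrable_finsetSum _ fun m _ => (integrable_mono_monomial hint n m).const_mul _
  exact_mod_cast h2

/-- Bessel -/
lemma bessel {g : ℂ → ℝ} (hg : ∀ (u : Circle) (z : ℂ), g ((u : ℂ) * z) = g z)
    (hint : Integrable g dA) (hg0 : ∀ z ∈ disc, 0 ≤ g z) (hS : 0 < ∫ z, g z ∂dA)
    {f : ℂ → ℂ} (hf : AEStronglyMeasurable f dA) {M : ℝ} (hM : ∀ z, ‖f z‖ ≤ M) (N : ℕ) :
    ∑ n ∈ Finset.range N, ‖∫ z, f z * (conj z) ^ n * (g z : ℂ) ∂dA‖ ^ 2
      ≤ (∫ z, g z ∂dA) * ∫ z, ‖f z‖ ^ 2 * g z ∂dA := by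
  set S : ℝ := ∫ z, g z ∂dA with hSdef
  set c : ℕ → ℂ := fun n => ∫ z, f z * (conj z) ^ n * (g z : ℂ) ∂dA with hc
  set s : ℂ → ℂ := fun z => ∑ n ∈ Finset.range N, c n * z ^ n with hs
  have hscont : Continuous s := by
    rw [hs]; fun_prop
  have hM0 : 0 ≤ M := (norm_nonneg _).trans (hM 0)
  have hfint : Integrable (fun z => ‖f z‖ ^ 2 * g z) dA := by
    refine integrable_mono_mul_real hint (K := M ^ 2) ?_ ?_
    · exact (hf.norm.pow 2)
    · intro z _
      rw [norm_pow, norm_norm]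
      have := hM z
      gcongr
  have hsint : Integrable (fun z => ‖s z‖ ^ 2 * g z) dA := by
    refine integrable_mono_mul_real hint (K := (∑ n ∈ Finset.range N, ‖c n‖) ^ 2) ?_ ?_
    · exact (hscont.norm.pow 2).aestronglyMeasurable
    · intro z hz
      rw [norm_pow, norm_norm]
      have := norm_poly_le c N hz
      gcongr
  have hfn : ∀ n, Integrable (fun z => f z * (conj z) ^ n * (g z : ℂ)) dA := by
    intro n
    refine integrable_mono_mul hint (K := M) ?_ ?_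
    · exact hf.mul (Continuous.aestronglyMeasurable (by fun_prop))
    · intro z hz
      rw [norm_mul, norm_pow, RCLike.norm_conj]
      have h1 := pow_le_one₀ (n := n) (norm_nonneg z) (norm_le_one_of_mem hz)
      calc ‖f z‖ * ‖z‖ ^ n ≤ M * 1 := mul_le_mul (hM z) h1 (by positivity) hM0
        _ = M := mul_one _
  have hcross : ∫ z, f z * conj (s z) * (g z : ℂ) ∂dA
      = ((∑ n ∈ Finset.range N, ‖c n‖ ^ 2 : ℝ) : ℂ) := by
    have h1 : ∀ z, f z * conj (s z) * (g z : ℂ)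
        = ∑ n ∈ Finset.range N, conj (c n) * (f z * (conj z) ^ n * (g z : ℂ)) := by
      intro z
      simp only [hs, map_sum, map_mul, map_pow]
      rw [Finset.mul_sum, Finset.sum_mul]
      refine Finset.sum_congr rfl fun n _ => ?_
      ring
    simp only [h1]
    rw [integral_finsetSum _ (fun n _ => (hfn n).const_mul _)]
    push_cast
    refine Finset.sum_congr rfl fun n _ => ?_
    rw [integral_const_mul, Complex.conj_mul']
  have hcrossint : Integrable (fun z => f z * conj (s z) * (g z : ℂ)) dA := by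
    refine integrable_mono_mul hint (K := M * (∑ n ∈ Finset.range N, ‖c n‖)) ?_ ?_
    · exact hf.mul (Complex.continuous_conj.comp hscont).aestronglyMeasurable
    · intro z hz
      rw [norm_mul, RCLike.norm_conj]
      exact mul_le_mul (hM z) (norm_poly_le c N hz) (norm_nonneg _) hM0
  have hcross' : ∫ z, (f z * conj (s z)).re * g z ∂dA = ∑ n ∈ Finset.range N, ‖c n‖ ^ 2 := by
    have h1 : ∀ z, (f z * conj (s z)).re * g z = (f z * conj (s z) * (g z : ℂ)).re := by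
      intro z; rw [Complex.re_mul_ofReal]
    simp only [h1]
    have := integral_re hcrossint
    simp only [RCLike.re_eq_complex_re] at this
    rw [this, hcross, Complex.ofReal_re]
  have hreint : Integrable (fun z => (f z * conj (s z)).re * g z) dA := by
    have h1 : ∀ z, (f z * conj (s z)).re * g z = (f z * conj (s z) * (g z : ℂ)).re := by
      intro z; rw [Complex.re_mul_ofReal]
    simp only [h1]
    exact hcrossint.re
  have hexp : ∀ z, ‖(S : ℂ) * f z - s z‖ ^ 2 * g z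
      = S ^ 2 * (‖f z‖ ^ 2 * g z) - 2 * S * ((f z * conj (s z)).re * g z) + ‖s z‖ ^ 2 * g z := by
    intro z
    have : ‖(S : ℂ) * f z - s z‖ ^ 2
      = S ^ 2 * ‖f z‖ ^ 2 - 2 * S * (f z * conj (s z)).re + ‖s z‖ ^ 2 := by
      rw [← Complex.normSq_eq_norm_sq, ← Complex.normSq_eq_norm_sq, ← Complex.normSq_eq_norm_sq,
        Complex.normSq_sub, map_mul, Complex.normSq_ofReal, mul_assoc (S : ℂ), Complex.re_ofReal_mul]
      ring
    rw [this]; ring
  have hnn : 0 ≤ ∫ z, ‖(S : ℂ) * f z - s z‖ ^ 2 * g z ∂dA := by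
    refine integral_nonneg_of_ae ?_
    filter_upwards [ae_disc] with z hz
    have := hg0 z hz
    simp only [Pi.zero_apply]
    positivity
  simp only [hexp] at hnn
  have hI1 := integral_add (μ := dA) ((hfint.const_mul (S ^ 2)).sub (hreint.const_mul (2 * S))) hsint
  have hI2 := integral_sub (μ := dA) (hfint.const_mul (S ^ 2)) (hreint.const_mul (2 * S))
  simp only [Pi.sub_apply] at hI1
  rw [hI1, hI2, integral_const_mul, integral_const_mul, hcross', parseval hg hint] at hnn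
  have hmom : ∀ n, ∫ z, ‖z‖ ^ (2 * n) * g z ∂dA ≤ S := by
    intro n
    rw [hSdef]
    refine integral_mono_ae ?_ hint ?_
    · refine integrable_mono_mul_real hint (K := 1) (Continuous.aestronglyMeasurable (by fun_prop)) ?_
      intro z hz
      rw [norm_pow, norm_norm]
      exact pow_le_one₀ (norm_nonneg z) (norm_le_one_of_mem hz)
    · filter_upwards [ae_disc] with z hz
      have h1 := pow_le_one₀ (n := 2 * n) (norm_nonneg z) (norm_le_one_of_mem hz)
      have h2 := hg0 z hz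
      calc ‖z‖ ^ (2 * n) * g z ≤ 1 * g z := by gcongr
        _ = g z := one_mul _
  have hsum : ∑ n ∈ Finset.range N, ‖c n‖ ^ 2 * ∫ z, ‖z‖ ^ (2 * n) * g z ∂dA
      ≤ S * ∑ n ∈ Finset.range N, ‖c n‖ ^ 2 := by
    rw [Finset.mul_sum]
    refine Finset.sum_le_sum fun n _ => ?_
    have := hmom n
    have h3 : 0 ≤ ‖c n‖ ^ 2 := by positivity
    nlinarith
  have hfin : 0 ≤ S * (S * ∫ z, ‖f z‖ ^ 2 * g z ∂dA - ∑ n ∈ Finset.range N, ‖c n‖ ^ 2) := by
    nlinarith
  have := nonneg_of_mul_nonneg_right hfin hS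
  linarith

lemma measurable_sq : Measurable (fun z : ℂ => ‖z‖ ^ 2) := by fun_prop

/-- push-forward of the area measure under `‖z‖^2` -/
lemma map_sq : Measure.map (fun z : ℂ => ‖z‖ ^ 2) dA = volume.restrict (Icc (0 : ℝ) 1) := by
  have : IsFiniteMeasure (Measure.map (fun z : ℂ => ‖z‖ ^ 2) dA) := inferInstance
  refine Measure.ext_of_Iic _ _ fun a => ?_
  rw [Measure.map_apply measurable_sq measurableSet_Iic,
    Measure.restrict_apply measurableSet_Iic]
  have hset : MeasurableSet ((fun z : ℂ => ‖z‖ ^ 2) ⁻¹' Iic a) := measurable_sq measurableSet_Iic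
  have hdA : dA ((fun z : ℂ => ‖z‖ ^ 2) ⁻¹' Iic a)
      = (volume disc)⁻¹ * volume ((fun z : ℂ => ‖z‖ ^ 2) ⁻¹' Iic a ∩ disc) := by
    rw [dA, Measure.smul_apply, smul_eq_mul, Measure.restrict_apply hset]
  rw [hdA]
  rcases lt_or_ge a 0 with ha | ha
  · have h1 : (fun z : ℂ => ‖z‖ ^ 2) ⁻¹' Iic a ∩ disc = ∅ := by
      ext z
      simp only [mem_inter_iff, mem_preimage, mem_Iic, mem_empty_iff_false, iff_false, not_and]
      intro h
      have : 0 ≤ ‖z‖ ^ 2 := by positivity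
      linarith
    have h2 : Iic a ∩ Icc (0 : ℝ) 1 = ∅ := by
      ext t
      simp only [mem_inter_iff, mem_Iic, mem_Icc, mem_empty_iff_false, iff_false, not_and]
      intro h h'
      linarith
    rw [h1, h2]; simp
  · rcases lt_or_ge a 1 with ha1 | ha1
    · have h1 : (fun z : ℂ => ‖z‖ ^ 2) ⁻¹' Iic a ∩ disc = Metric.closedBall (0 : ℂ) (√a) := by
        ext z
        simp only [mem_inter_iff, mem_preimage, mem_Iic, disc, Metric.mem_ball, dist_zero_right,
          Metric.mem_closedBall]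
        constructor
        · rintro ⟨h, -⟩
          exact Real.le_sqrt_of_sq_le h
        · intro h
          have h3 : ‖z‖ ^ 2 ≤ a := by
            calc ‖z‖ ^ 2 ≤ (√a) ^ 2 := by gcongr
              _ = a := Real.sq_sqrt ha
          refine ⟨h3, ?_⟩
          have : ‖z‖ ^ 2 < 1 := h3.trans_lt ha1
          nlinarith [norm_nonneg z]
      have h2 : Iic a ∩ Icc (0 : ℝ) 1 = Icc 0 a := by
        ext t
        simp only [mem_inter_iff, mem_Iic, mem_Icc]
        constructor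
        · rintro ⟨h, h', -⟩; exact ⟨h', h⟩
        · rintro ⟨h, h'⟩; exact ⟨h', h, by linarith⟩
      rw [h1, h2, Complex.volume_closedBall, Real.volume_Icc, vol_disc, ← ENNReal.ofReal_pow
        (Real.sqrt_nonneg a), Real.sq_sqrt ha, sub_zero, mul_comm (ENNReal.ofReal a), ← mul_assoc,
        ENNReal.inv_mul_cancel, one_mul]
      · rw [← vol_disc]; exact vol_disc_ne_zero
      · rw [← vol_disc]; exact vol_disc_ne_top
    · have h1 : (fun z : ℂ => ‖z‖ ^ 2) ⁻¹' Iic a ∩ disc = disc := by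
        ext z
        simp only [mem_inter_iff, mem_preimage, mem_Iic, and_iff_right_iff_imp]
        intro h
        have := norm_le_one_of_mem h
        nlinarith [norm_nonneg z]
      have h2 : Iic a ∩ Icc (0 : ℝ) 1 = Icc 0 1 := by
        ext t
        simp only [mem_inter_iff, mem_Iic, mem_Icc]
        constructor
        · rintro ⟨h, h'⟩; exact h'
        · rintro ⟨h, h'⟩; exact ⟨by linarith, h, h'⟩
      rw [h1, h2, Real.volume_Icc, ENNReal.inv_mul_cancel vol_disc_ne_zero vol_disc_ne_top]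
      simp

lemma integral_radial {φ : ℝ → ℝ} (hφ : AEStronglyMeasurable φ (volume.restrict (Icc (0 : ℝ) 1))) :
    ∫ z, φ (‖z‖ ^ 2) ∂dA = ∫ t in Icc (0 : ℝ) 1, φ t := by
  rw [← map_sq] at hφ ⊢
  rw [integral_map measurable_sq.aemeasurable hφ]

lemma moment (n : ℕ) : ∫ z : ℂ, ‖z‖ ^ (2 * n) * (1 - ‖z‖ ^ 2) ∂dA
    = (1 : ℝ) / ((n : ℝ) + 1) - 1 / ((n : ℝ) + 2) := by
  have h1 : ∀ z : ℂ, ‖z‖ ^ (2 * n) * (1 - ‖z‖ ^ 2)
      = (fun t : ℝ => t ^ n * (1 - t)) (‖z‖ ^ 2) := by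
    intro z
    simp only
    rw [← pow_mul]
  simp only [h1]
  rw [integral_radial (φ := fun t : ℝ => t ^ n * (1 - t))
    (Continuous.aestronglyMeasurable (by fun_prop))]
  rw [integral_Icc_eq_integral_Ioc, ← intervalIntegral.integral_of_le zero_le_one]
  have h2 : ∀ t : ℝ, t ^ n * (1 - t) = t ^ n - t ^ (n + 1) := by intro t; ring
  simp only [h2]
  rw [intervalIntegral.integral_sub]
  · rw [integral_pow, integral_pow]
    simp only [one_pow]
    rw [zero_pow (by omega), zero_pow (by omega)]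
    push_cast
    ring
  · exact (continuous_pow n).intervalIntegrable _ _
  · exact (continuous_pow (n + 1)).intervalIntegrable _ _

/-- The Bergman projection. -/
noncomputable def bergmanProj (f : ℂ → ℂ) (z : ℂ) : ℂ :=
  ∫ ζ, f ζ / (1 - z * conj ζ) ^ 2 ∂dA

/-- The maximal Bergman projection. -/
noncomputable def maxBergmanProj (f : ℂ → ℂ) (z : ℂ) : ℂ :=
  ∫ ζ, f ζ / ((‖1 - z * conj ζ‖ ^ 2 : ℝ) : ℂ) ∂dA

/-- A weight: positive and locally integrable on the disc. -/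
def IsWeight (u : ℂ → ℝ) : Prop :=
  (∀ z ∈ disc, 0 < u z) ∧ LocallyIntegrableOn u disc volume

/-- The norm of `L²(𝔻, u)`. -/
noncomputable def weightedNorm (u : ℂ → ℝ) (f : ℂ → ℂ) : ℝ≥0∞ :=
  (∫⁻ z, ‖f z‖ₑ ^ 2 * ENNReal.ofReal (u z) ∂dA) ^ (1 / 2 : ℝ)

/-- Bounded functions with compact support in the disc. -/
def IsTestFunction (f : ℂ → ℂ) : Prop :=
  AEStronglyMeasurable f dA ∧ (∃ M : ℝ, ∀ z, ‖f z‖ ≤ M) ∧ HasCompactSupport f ∧ tsupport f ⊆ disc

/-- `T(σ ·) : L²(𝔻, σ) → L²(𝔻, w)` is bounded. -/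
def TwoWeightBounded (T : (ℂ → ℂ) → ℂ → ℂ) (w σ : ℂ → ℝ) : Prop :=
  ∃ C : ℝ≥0, ∀ f : ℂ → ℂ, IsTestFunction f →
    weightedNorm w (T (fun ζ => (σ ζ : ℂ) * f ζ)) ≤ C * weightedNorm σ f

lemma hasSum_bergmanProj {g : ℂ → ℝ} (hint : Integrable g dA)
    {f : ℂ → ℂ} (hf : AEStronglyMeasurable f dA) {M : ℝ} (hM : ∀ z, ‖f z‖ ≤ M)
    {z : ℂ} (hz : z ∈ disc) :
    HasSum (fun n : ℕ => (((n : ℂ) + 1) * ∫ ζ, f ζ * (conj ζ) ^ n * (g ζ : ℂ) ∂dA) * z ^ n)
      (bergmanProj (fun ζ => (g ζ : ℂ) * f ζ) z) := by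
  have hz1 : ‖z‖ < 1 := by simpa [disc] using hz
  have hM0 : 0 ≤ M := (norm_nonneg _).trans (hM 0)
  have hsummable : Summable (fun n : ℕ => ((n : ℝ) + 1) * ‖z‖ ^ n) := by
    have := (hasSum_choose_mul_geometric_of_norm_lt_one (𝕜 := ℝ) 1 (r := ‖z‖)
      (by rwa [norm_norm])).summable
    simpa using this
  have key : HasSum (fun n : ℕ => ∫ ζ, (((n : ℂ) + 1) * z ^ n) * (f ζ * (conj ζ) ^ n * (g ζ : ℂ)) ∂dA)
      (∫ ζ, ((g ζ : ℂ) * f ζ) / (1 - z * conj ζ) ^ 2 ∂dA) := by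
    refine hasSum_integral_of_dominated_convergence
      (fun n ζ => (((n : ℝ) + 1) * ‖z‖ ^ n) * (M * |g ζ|)) ?_ ?_ ?_ ?_ ?_
    · intro n
      refine AEStronglyMeasurable.const_mul ?_ _
      refine (hf.mul (Continuous.aestronglyMeasurable (by fun_prop))).mul ?_
      exact hint.ofReal.aestronglyMeasurable
    · intro n
      filter_upwards [ae_disc] with ζ hζ
      rw [norm_mul, norm_mul, norm_mul, norm_mul, norm_pow, norm_pow, RCLike.norm_conj,
        Complex.norm_real, Real.norm_eq_abs]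
      have h1 : ‖((n : ℂ) + 1)‖ = (n : ℝ) + 1 := by
        have : ((n : ℂ) + 1) = (((n : ℝ) + 1 : ℝ) : ℂ) := by push_cast; ring
        rw [this, Complex.norm_real, Real.norm_eq_abs, abs_of_nonneg (by positivity)]
      rw [h1]
      have h2 := pow_le_one₀ (n := n) (norm_nonneg ζ) (norm_le_one_of_mem hζ)
      have h3 : ‖f ζ‖ * ‖ζ‖ ^ n ≤ M * 1 := mul_le_mul (hM ζ) h2 (by positivity) hM0
      rw [mul_one] at h3
      gcongr
    · filter_upwards with ζ
      exact hsummable.mul_right _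
    · simp only [tsum_mul_right]
      exact (hint.abs.const_mul M).const_mul _
    · filter_upwards [ae_disc] with ζ hζ
      have hζ1 : ‖ζ‖ ≤ 1 := norm_le_one_of_mem hζ
      have hx : ‖z * conj ζ‖ < 1 := by
        rw [norm_mul, RCLike.norm_conj]
        calc ‖z‖ * ‖ζ‖ ≤ ‖z‖ * 1 := by gcongr
          _ < 1 := by simpa using hz1
      have h1 := hasSum_choose_mul_geometric_of_norm_lt_one (𝕜 := ℂ) 1 hx
      have h2 := h1.mul_left ((g ζ : ℂ) * f ζ)
      have e1 : (fun n : ℕ => (((n : ℂ) + 1) * z ^ n) * (f ζ * (conj ζ) ^ n * (g ζ : ℂ)))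
          = fun i : ℕ => (g ζ : ℂ) * f ζ * (((i + 1).choose 1 : ℂ) * (z * conj ζ) ^ i) := by
        funext n
        simp only [Nat.choose_one_right]
        push_cast
        rw [mul_pow]; ring
      have e2 : ((g ζ : ℂ) * f ζ) / (1 - z * conj ζ) ^ 2
          = (g ζ : ℂ) * f ζ * (1 / (1 - z * conj ζ) ^ (1 + 1)) := by
        rw [mul_one_div]
      rw [e1, e2]
      exact h2
  have h4 : ∀ n : ℕ, ∫ ζ, (((n : ℂ) + 1) * z ^ n) * (f ζ * (conj ζ) ^ n * (g ζ : ℂ)) ∂dA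
      = (((n : ℂ) + 1) * ∫ ζ, f ζ * (conj ζ) ^ n * (g ζ : ℂ) ∂dA) * z ^ n := by
    intro n
    rw [integral_const_mul]; ring
  simp only [h4] at key
  exact key

/-- main upper bound with `w = 1 - ‖z‖²` -/
lemma bergman_upper {g : ℂ → ℝ} (hg : ∀ (u : Circle) (z : ℂ), g ((u : ℂ) * z) = g z)
    (hint : Integrable g dA) (hg0 : ∀ z ∈ disc, 0 ≤ g z) (hS : 0 < ∫ z, g z ∂dA)
    {f : ℂ → ℂ} (hf : AEStronglyMeasurable f dA) {M : ℝ} (hM : ∀ z, ‖f z‖ ≤ M) :
    ∫⁻ z, ‖bergmanProj (fun ζ => (g ζ : ℂ) * f ζ) z‖ₑ ^ 2 * ENNReal.ofReal (1 - ‖z‖ ^ 2) ∂dA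
      ≤ ENNReal.ofReal (∫ z, g z ∂dA) * ∫⁻ z, ‖f z‖ₑ ^ 2 * ENNReal.ofReal (g z) ∂dA := by
  set c : ℕ → ℂ := fun n => ∫ z, f z * (conj z) ^ n * (g z : ℂ) ∂dA with hc
  set b : ℕ → ℂ := fun n => ((n : ℂ) + 1) * c n with hb
  set P : ℂ → ℂ := bergmanProj (fun ζ => (g ζ : ℂ) * f ζ) with hP
  set w : ℂ → ℝ := fun z => 1 - ‖z‖ ^ 2 with hw
  have hM0 : 0 ≤ M := (norm_nonneg _).trans (hM 0)
  have hwcont : Continuous w := by rw [hw]; fun_prop
  have hwint : Integrable w dA := by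
    refine Integrable.mono' (integrable_const (1 : ℝ)) hwcont.aestronglyMeasurable ?_
    filter_upwards [ae_disc] with z hz
    have := norm_le_one_of_mem hz
    rw [Real.norm_eq_abs, hw, abs_le]
    constructor <;> nlinarith [norm_nonneg z]
  have hwinv : ∀ (u : Circle) (z : ℂ), w ((u : ℂ) * z) = w z := by
    intro u z; simp [hw, Circle.norm_coe]
  -- partial sums
  have hpart : ∀ N : ℕ, ∫⁻ z, ‖∑ n ∈ Finset.range N, b n * z ^ n‖ₑ ^ 2 * ENNReal.ofReal (w z) ∂dA
      ≤ ENNReal.ofReal ((∫ z, g z ∂dA) * ∫ z, ‖f z‖ ^ 2 * g z ∂dA) := by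
    intro N
    have hcont : Continuous (fun z : ℂ => ∑ n ∈ Finset.range N, b n * z ^ n) := by fun_prop
    have h1 : ∫⁻ z, ‖∑ n ∈ Finset.range N, b n * z ^ n‖ₑ ^ 2 * ENNReal.ofReal (w z) ∂dA
        = ENNReal.ofReal (∫ z, ‖∑ n ∈ Finset.range N, b n * z ^ n‖ ^ 2 * w z ∂dA) := by
      rw [ofReal_integral_eq_lintegral_ofReal]
      · refine lintegral_congr_ae ?_
        filter_upwards [ae_disc] with z hz
        rw [ENNReal.ofReal_mul (by positivity), ENNReal.ofReal_pow (norm_nonneg _),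
          ofReal_norm]
      · refine integrable_mono_mul_real hwint (K := (∑ n ∈ Finset.range N, ‖b n‖) ^ 2) ?_ ?_
        · exact (hcont.norm.pow 2).aestronglyMeasurable
        · intro z hz
          rw [norm_pow, norm_norm]
          have := norm_poly_le b N hz
          gcongr
      · filter_upwards [ae_disc] with z hz
        have := norm_le_one_of_mem hz
        have h3 : 0 ≤ w z := by rw [hw]; nlinarith [norm_nonneg z]
        simp only [Pi.zero_apply]
        positivity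
    rw [h1]
    refine ENNReal.ofReal_le_ofReal ?_
    rw [parseval hwinv hwint]
    refine le_trans ?_ (bessel hg hint hg0 hS hf hM N)
    refine Finset.sum_le_sum fun n _ => ?_
    rw [moment n]
    have h2 : ‖b n‖ ^ 2 = ((n : ℝ) + 1) ^ 2 * ‖c n‖ ^ 2 := by
      rw [hb, norm_mul, mul_pow]
      congr 2
      have : ((n : ℂ) + 1) = (((n : ℝ) + 1 : ℝ) : ℂ) := by push_cast; ring
      rw [this, Complex.norm_real, Real.norm_eq_abs, abs_of_nonneg (by positivity)]
    rw [h2]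
    have h3 : ((n : ℝ) + 1) ^ 2 * (1 / ((n : ℝ) + 1) - 1 / ((n : ℝ) + 2)) ≤ 1 := by
      have : ((n : ℝ) + 1) ^ 2 * (1 / ((n : ℝ) + 1) - 1 / ((n : ℝ) + 2))
        = ((n : ℝ) + 1) / ((n : ℝ) + 2) := by
        field_simp
        ring
      rw [this, div_le_one (by positivity)]
      linarith
    calc ((n : ℝ) + 1) ^ 2 * ‖c n‖ ^ 2 * (1 / ((n : ℝ) + 1) - 1 / ((n : ℝ) + 2))
        = (((n : ℝ) + 1) ^ 2 * (1 / ((n : ℝ) + 1) - 1 / ((n : ℝ) + 2))) * ‖c n‖ ^ 2 := by ring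
      _ ≤ 1 * ‖c n‖ ^ 2 := by gcongr
      _ = ‖c n‖ ^ 2 := one_mul _
  have hfatou : ∫⁻ z, ‖P z‖ₑ ^ 2 * ENNReal.ofReal (w z) ∂dA
      ≤ liminf (fun N : ℕ => ∫⁻ z, ‖∑ n ∈ Finset.range N, b n * z ^ n‖ₑ ^ 2
          * ENNReal.ofReal (w z) ∂dA) atTop := by
    refine le_trans (le_of_eq ?_) (lintegral_liminf_le ?_)
    · refine lintegral_congr_ae ?_
      filter_upwards [ae_disc] with z hz
      have h1 := (hasSum_bergmanProj hint hf hM hz).tendsto_sum_nat
      have h2 : Tendsto (fun N : ℕ => ‖∑ n ∈ Finset.range N, b n * z ^ n‖ₑ ^ 2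
          * ENNReal.ofReal (w z)) atTop (𝓝 (‖P z‖ₑ ^ 2 * ENNReal.ofReal (w z))) := by
        refine ENNReal.Tendsto.mul_const ?_ (Or.inr ENNReal.ofReal_ne_top)
        exact ((ENNReal.continuous_pow 2).tendsto _).comp ((continuous_enorm.tendsto _).comp h1)
      exact h2.liminf_eq.symm
    · intro N
      have hcont : Continuous (fun z : ℂ => ∑ n ∈ Finset.range N, b n * z ^ n) := by fun_prop
      exact (hcont.enorm.measurable.pow_const 2).mul (hwcont.measurable.ennreal_ofReal)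
  have hfintegral : ENNReal.ofReal (∫ z, ‖f z‖ ^ 2 * g z ∂dA)
      = ∫⁻ z, ‖f z‖ₑ ^ 2 * ENNReal.ofReal (g z) ∂dA := by
    rw [ofReal_integral_eq_lintegral_ofReal]
    · refine lintegral_congr_ae ?_
      filter_upwards [ae_disc] with z hz
      rw [ENNReal.ofReal_mul (by positivity), ENNReal.ofReal_pow (norm_nonneg _),
        ofReal_norm]
    · refine integrable_mono_mul_real hint (K := M ^ 2) (hf.norm.pow 2) ?_
      intro z _
      rw [norm_pow, norm_norm]
      have := hM z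
      gcongr
    · filter_upwards [ae_disc] with z hz
      have := hg0 z hz
      simp only [Pi.zero_apply]
      positivity
  refine hfatou.trans ?_
  rw [← hfintegral, ← ENNReal.ofReal_mul hS.le]
  refine (liminf_le_liminf (Eventually.of_forall hpart)).trans ?_
  simp

/-- Poisson-type identity for radial densities. -/
lemma poisson {g : ℂ → ℝ} (hg : ∀ (u : Circle) (z : ℂ), g ((u : ℂ) * z) = g z)
    (hint : Integrable g dA) {z : ℂ} (hz : z ∈ disc) :
    ∫ ζ, g ζ / ‖1 - z * conj ζ‖ ^ 2 ∂dA = ∫ ζ, g ζ / (1 - ‖z‖ ^ 2 * ‖ζ‖ ^ 2) ∂dA := by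
  have hz1 : ‖z‖ < 1 := by simpa [disc] using hz
  have hz2 : 0 < 1 - ‖z‖ := by linarith
  have hlim1 : Tendsto (fun N : ℕ => ∫ ζ, ‖∑ n ∈ Finset.range N, (conj z) ^ n * ζ ^ n‖ ^ 2 * g ζ ∂dA)
      atTop (𝓝 (∫ ζ, g ζ / ‖1 - z * conj ζ‖ ^ 2 ∂dA)) := by
    refine tendsto_integral_of_dominated_convergence (fun ζ => (1 - ‖z‖)⁻¹ ^ 2 * |g ζ|) ?_ ?_ ?_ ?_
    · intro N
      refine AEStronglyMeasurable.mul ?_ hint.aestronglyMeasurable
      exact Continuous.aestronglyMeasurable (by fun_prop)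
    · exact hint.abs.const_mul _
    · intro N
      filter_upwards [ae_disc] with ζ hζ
      rw [norm_mul, norm_pow, norm_norm, Real.norm_eq_abs]
      have h1 : ‖∑ n ∈ Finset.range N, (conj z) ^ n * ζ ^ n‖ ≤ (1 - ‖z‖)⁻¹ := by
        calc ‖∑ n ∈ Finset.range N, (conj z) ^ n * ζ ^ n‖
            ≤ ∑ n ∈ Finset.range N, ‖z‖ ^ n := by
              refine (norm_sum_le _ _).trans (Finset.sum_le_sum fun n _ => ?_)
              rw [norm_mul, norm_pow, norm_pow, RCLike.norm_conj]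
              have := pow_le_one₀ (n := n) (norm_nonneg ζ) (norm_le_one_of_mem hζ)
              calc ‖z‖ ^ n * ‖ζ‖ ^ n ≤ ‖z‖ ^ n * 1 := by gcongr
                _ = ‖z‖ ^ n := mul_one _
          _ ≤ ∑' n : ℕ, ‖z‖ ^ n :=
              (summable_geometric_of_lt_one (norm_nonneg z) hz1).sum_le_tsum _
                (fun n _ => by positivity)
          _ = (1 - ‖z‖)⁻¹ := tsum_geometric_of_lt_one (norm_nonneg z) hz1
      gcongr
    · filter_upwards [ae_disc] with ζ hζ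
      have hζ1 : ‖ζ‖ ≤ 1 := norm_le_one_of_mem hζ
      have hx : ‖conj z * ζ‖ < 1 := by
        rw [norm_mul, RCLike.norm_conj]
        calc ‖z‖ * ‖ζ‖ ≤ ‖z‖ * 1 := by gcongr
          _ < 1 := by simpa using hz1
      have h1 := (hasSum_geometric_of_norm_lt_one hx).tendsto_sum_nat
      have h2 : Tendsto (fun N : ℕ => ∑ n ∈ Finset.range N, (conj z) ^ n * ζ ^ n) atTop
          (𝓝 (1 - conj z * ζ)⁻¹) := by
        simpa only [mul_pow] using h1
      have h3 := (h2.norm.pow 2).mul_const (g ζ)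
      have h4 : ‖(1 - conj z * ζ)⁻¹‖ ^ 2 * g ζ = g ζ / ‖1 - z * conj ζ‖ ^ 2 := by
        have : ‖1 - conj z * ζ‖ = ‖1 - z * conj ζ‖ := by
          rw [← RCLike.norm_conj (1 - z * conj ζ)]
          simp
        rw [norm_inv, this, inv_pow]
        ring
      rw [h4] at h3
      exact h3
  have hlim2 : Tendsto (fun N : ℕ => ∫ ζ, ‖∑ n ∈ Finset.range N, (conj z) ^ n * ζ ^ n‖ ^ 2 * g ζ ∂dA)
      atTop (𝓝 (∫ ζ, g ζ / (1 - ‖z‖ ^ 2 * ‖ζ‖ ^ 2) ∂dA)) := by
    have h1 : ∀ N : ℕ, ∫ ζ, ‖∑ n ∈ Finset.range N, (conj z) ^ n * ζ ^ n‖ ^ 2 * g ζ ∂dA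
        = ∑ n ∈ Finset.range N, ∫ ζ, (‖z‖ ^ 2) ^ n * ((‖ζ‖ ^ 2) ^ n * g ζ) ∂dA := by
      intro N
      rw [parseval hg hint (fun n => (conj z) ^ n) N]
      refine Finset.sum_congr rfl fun n _ => ?_
      rw [integral_const_mul]
      congr 1
      · rw [norm_pow, RCLike.norm_conj, ← pow_mul, ← pow_mul, mul_comm]
      · simp only [pow_mul]
    simp only [h1]
    refine HasSum.tendsto_sum_nat ?_
    refine hasSum_integral_of_dominated_convergence
      (fun n ζ => (‖z‖ ^ 2) ^ n * |g ζ|) ?_ ?_ ?_ ?_ ?_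
    · intro n
      refine AEStronglyMeasurable.const_mul ?_ _
      exact (Continuous.aestronglyMeasurable (by fun_prop)).mul hint.aestronglyMeasurable
    · intro n
      filter_upwards [ae_disc] with ζ hζ
      rw [norm_mul, norm_mul, Real.norm_eq_abs (g ζ)]
      have h2 : ‖(‖ζ‖ ^ 2) ^ n‖ ≤ 1 := by
        rw [← pow_mul, norm_pow, norm_norm]
        exact pow_le_one₀ (norm_nonneg ζ) (norm_le_one_of_mem hζ)
      have h3 : ‖(‖z‖ ^ 2) ^ n‖ = (‖z‖ ^ 2) ^ n := by
        rw [Real.norm_eq_abs, abs_of_nonneg (by positivity)]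
      rw [h3]
      have h4 : ‖(‖ζ‖ ^ 2) ^ n‖ * |g ζ| ≤ 1 * |g ζ| := by gcongr
      rw [one_mul] at h4
      gcongr
    · filter_upwards with ζ
      exact (summable_geometric_of_lt_one (by positivity) (by nlinarith [norm_nonneg z])).mul_right _
    · simp only [tsum_mul_right]
      exact hint.abs.const_mul _
    · filter_upwards [ae_disc] with ζ hζ
      have hζ1 : ‖ζ‖ ≤ 1 := norm_le_one_of_mem hζ
      have hx : ‖z‖ ^ 2 * ‖ζ‖ ^ 2 < 1 := by
        have h5 : ‖z‖ ^ 2 < 1 := by nlinarith [norm_nonneg z]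
        have h6 : ‖ζ‖ ^ 2 ≤ 1 := by nlinarith [norm_nonneg ζ]
        calc ‖z‖ ^ 2 * ‖ζ‖ ^ 2 ≤ ‖z‖ ^ 2 * 1 := by gcongr
          _ < 1 := by simpa using h5
      have h7 := (hasSum_geometric_of_lt_one (by positivity) hx).mul_right (g ζ)
      have e1 : (fun n : ℕ => (‖z‖ ^ 2) ^ n * ((‖ζ‖ ^ 2) ^ n * g ζ))
          = fun n : ℕ => (‖z‖ ^ 2 * ‖ζ‖ ^ 2) ^ n * g ζ := by
        funext n; rw [mul_pow]; ring
      have e2 : g ζ / (1 - ‖z‖ ^ 2 * ‖ζ‖ ^ 2) = (1 - ‖z‖ ^ 2 * ‖ζ‖ ^ 2)⁻¹ * g ζ := by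
        rw [div_eq_inv_mul]
      rw [e1, e2]
      exact h7
  exact tendsto_nhds_unique hlim1 hlim2

/-- logarithmic factor -/
noncomputable def L (t : ℝ) : ℝ := 1 - Real.log (1 - t)

/-- the radial profile of `σ` -/
noncomputable def psi (t : ℝ) : ℝ := ((1 - t) * (L t * √(L t)))⁻¹

lemma one_le_L {t : ℝ} (h0 : 0 ≤ t) (h1 : t < 1) : 1 ≤ L t := by
  have := Real.log_nonpos (x := 1 - t) (by linarith) (by linarith)
  unfold L; linarith

lemma psi_pos {t : ℝ} (h0 : 0 ≤ t) (h1 : t < 1) : 0 < psi t := by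
  have h2 := one_le_L h0 h1
  have h3 : 0 < L t := by linarith
  have h4 : 0 < 1 - t := by linarith
  unfold psi
  have := Real.sqrt_pos.2 h3
  positivity

lemma hasDerivAt_L {t : ℝ} (h1 : t < 1) : HasDerivAt L (1 - t)⁻¹ t := by
  have h2 : HasDerivAt (fun t : ℝ => 1 - t) (-1) t := by
    simpa using (hasDerivAt_id t).const_sub 1
  have h3 := (h2.log (by linarith : (1 - t) ≠ 0)).const_sub 1
  have h4 : -(-1 / (1 - t)) = (1 - t)⁻¹ := by rw [neg_div, neg_neg, one_div]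
  rw [h4] at h3
  exact h3

lemma hasDerivAt_F {t : ℝ} (h0 : 0 ≤ t) (h1 : t < 1) :
    HasDerivAt (fun t => -2 * (√(L t))⁻¹) (psi t) t := by
  have h2 := one_le_L h0 h1
  have h3 : 0 < L t := by linarith
  have h5 := (hasDerivAt_L h1).sqrt h3.ne'
  have h6 := (h5.inv (Real.sqrt_pos.2 h3).ne').const_mul (-2)
  have h7 : -2 * (-((1 - t)⁻¹ / (2 * √(L t))) / √(L t) ^ 2) = psi t := by
    unfold psi
    rw [Real.sq_sqrt h3.le]
    have h8 : 1 - t ≠ 0 := by linarith
    have h9 := (Real.sqrt_pos.2 h3).ne'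
    field_simp
  rw [h7] at h6
  exact h6

lemma continuousOn_psi : ContinuousOn psi (Ico 0 1) := by
  intro t ht
  have h2 := one_le_L ht.1 ht.2
  have h3 : 0 < L t := by linarith
  have hL : ContinuousAt L t := (hasDerivAt_L ht.2).continuousAt
  refine ContinuousAt.continuousWithinAt ?_
  unfold psi
  refine ContinuousAt.inv₀ ?_ ?_
  · refine ContinuousAt.mul (by fun_prop) (hL.mul ?_)
    exact Real.continuous_sqrt.continuousAt.comp hL
  · have h8 : 1 - t ≠ 0 := by linarith [ht.2]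
    have h9 := (Real.sqrt_pos.2 h3).ne'
    positivity

lemma integral_psi {a b : ℝ} (ha : 0 ≤ a) (hab : a ≤ b) (hb : b < 1) :
    ∫ t in a..b, psi t = 2 * (√(L a))⁻¹ - 2 * (√(L b))⁻¹ := by
  rw [intervalIntegral.integral_eq_sub_of_hasDerivAt (f := fun t => -2 * (√(L t))⁻¹)]
  · ring
  · intro x hx
    rw [uIcc_of_le hab] at hx
    exact hasDerivAt_F (ha.trans hx.1) (hx.2.trans_lt hb)
  · refine ContinuousOn.intervalIntegrable ?_
    rw [uIcc_of_le hab]
    exact continuousOn_psi.mono fun x hx => ⟨ha.trans hx.1, hx.2.trans_lt hb⟩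

lemma integrableOn_psi : IntegrableOn psi (Icc 0 1) volume := by
  rw [integrableOn_Icc_iff_integrableOn_Ioc]
  have hb : Tendsto (fun n : ℕ => (1 : ℝ) - 1 / ((n : ℝ) + 1)) atTop (𝓝 1) := by
    have := (tendsto_one_div_add_atTop_nhds_zero_nat (𝕜 := ℝ)).const_sub 1
    simpa using this
  have hbn : ∀ n : ℕ, 0 ≤ (1 : ℝ) - 1 / ((n : ℝ) + 1) ∧ (1 : ℝ) - 1 / ((n : ℝ) + 1) < 1 := by
    intro n
    have h1 : 0 < 1 / ((n : ℝ) + 1) := by positivity
    have h2 : 1 / ((n : ℝ) + 1) ≤ 1 := by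
      rw [div_le_one (by positivity)]; linarith [(Nat.cast_nonneg n : (0 : ℝ) ≤ n)]
    constructor <;> linarith
  refine integrableOn_Ioc_of_intervalIntegral_norm_bounded_right (I := 2) (l := atTop) ?_ hb ?_
  · intro n
    rw [← integrableOn_Icc_iff_integrableOn_Ioc]
    refine ContinuousOn.integrableOn_Icc ?_
    exact continuousOn_psi.mono fun x hx => ⟨hx.1, hx.2.trans_lt (hbn n).2⟩
  · refine Eventually.of_forall fun n => ?_
    have h1 : ∫ x in Ioc 0 ((1 : ℝ) - 1 / ((n : ℝ) + 1)), ‖psi x‖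
        = ∫ x in Ioc 0 ((1 : ℝ) - 1 / ((n : ℝ) + 1)), psi x := by
      refine setIntegral_congr_fun measurableSet_Ioc fun x hx => ?_
      rw [Real.norm_eq_abs, abs_of_pos (psi_pos hx.1.le (hx.2.trans_lt (hbn n).2))]
    rw [h1, ← intervalIntegral.integral_of_le (hbn n).1, integral_psi le_rfl (hbn n).1 (hbn n).2]
    have h2 : L 0 = 1 := by simp [L]
    rw [h2]
    have h3 : 0 ≤ (√(L (1 - 1 / ((n : ℝ) + 1))))⁻¹ := by positivity
    simp only [Real.sqrt_one, inv_one]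
    linarith

/-- the weight `w` -/
noncomputable def w0 (z : ℂ) : ℝ := 1 - ‖z‖ ^ 2

/-- the weight `σ` -/
noncomputable def s0 (z : ℂ) : ℝ := psi (‖z‖ ^ 2)

lemma sq_mem {z : ℂ} (hz : z ∈ disc) : ‖z‖ ^ 2 ∈ Ico (0 : ℝ) 1 := by
  have hz1 : ‖z‖ < 1 := by simpa [disc] using hz
  exact ⟨by positivity, by nlinarith [norm_nonneg z]⟩

lemma isWeight_w0 : IsWeight w0 := by
  constructor
  · intro z hz
    have := (sq_mem hz).2
    unfold w0; linarith
  · have : Continuous w0 := by unfold w0; fun_prop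
    exact this.locallyIntegrable.locallyIntegrableOn _

lemma isWeight_s0 : IsWeight s0 := by
  constructor
  · intro z hz
    exact psi_pos (sq_mem hz).1 (sq_mem hz).2
  · refine ContinuousOn.locallyIntegrableOn ?_ Metric.isOpen_ball.measurableSet
    exact continuousOn_psi.comp (by fun_prop) fun z hz => sq_mem hz

lemma integrable_s0 : Integrable s0 dA := by
  have h := integrableOn_psi
  unfold IntegrableOn at h
  rw [← map_sq] at h
  exact (integrable_map_measure h.aestronglyMeasurable measurable_sq.aemeasurable).1 h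

lemma s0_inv (u : Circle) (z : ℂ) : s0 ((u : ℂ) * z) = s0 z := by
  simp [s0, Circle.norm_coe]

/-- the annulus -/
def annulus (a b : ℝ) : Set ℂ := {z | a ≤ ‖z‖ ^ 2 ∧ ‖z‖ ^ 2 ≤ b}

lemma isClosed_annulus (a b : ℝ) : IsClosed (annulus a b) := by
  have h1 : IsClosed {z : ℂ | a ≤ ‖z‖ ^ 2} :=
    isClosed_le continuous_const (by fun_prop)
  have h2 : IsClosed {z : ℂ | ‖z‖ ^ 2 ≤ b} :=
    isClosed_le (by fun_prop) continuous_const
  exact h1.inter h2

/-- the test function -/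
noncomputable def tf (a b : ℝ) : ℂ → ℂ := (annulus a b).indicator (fun _ => 1)

lemma annulus_subset {a b : ℝ} (hb : b < 1) : annulus a b ⊆ disc := by
  intro z hz
  have h1 : ‖z‖ ^ 2 < 1 := lt_of_le_of_lt hz.2 hb
  simp only [disc, Metric.mem_ball, dist_zero_right]
  nlinarith [norm_nonneg z]

lemma isTest_tf {a b : ℝ} (hb : b < 1) : IsTestFunction (tf a b) := by
  have hts : tsupport (tf a b) ⊆ annulus a b := by
    refine closure_minimal ?_ (isClosed_annulus a b)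
    exact support_indicator_subset
  refine ⟨?_, ⟨1, ?_⟩, ?_, ?_⟩
  · exact (aestronglyMeasurable_const).indicator (isClosed_annulus a b).measurableSet
  · intro z
    unfold tf
    by_cases hz : z ∈ annulus a b
    · rw [indicator_of_mem hz]; simp
    · rw [indicator_of_notMem hz]; simp
  · have hc : IsCompact (annulus a b) := by
      refine (isCompact_closedBall (0 : ℂ) 1).of_isClosed_subset (isClosed_annulus a b) ?_
      exact (annulus_subset hb).trans Metric.ball_subset_closedBall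
    exact hc.of_isClosed_subset (isClosed_tsupport _) hts
  · exact hts.trans (annulus_subset hb)

/-- the density `σ · 1_A` -/
noncomputable def ga (a b : ℝ) : ℂ → ℝ := (annulus a b).indicator s0

lemma ga_inv (a b : ℝ) (u : Circle) (z : ℂ) : ga a b ((u : ℂ) * z) = ga a b z := by
  have h : ((u : ℂ) * z ∈ annulus a b) ↔ z ∈ annulus a b := by
    simp [annulus, Circle.norm_coe]
  unfold ga
  by_cases hz : z ∈ annulus a b
  · rw [indicator_of_mem hz, indicator_of_mem (h.2 hz), s0_inv]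
  · rw [indicator_of_notMem hz, indicator_of_notMem (fun h' => hz (h.1 h'))]

lemma integrable_ga (a b : ℝ) : Integrable (ga a b) dA :=
  integrable_s0.indicator (isClosed_annulus a b).measurableSet

lemma ga_nonneg {a b : ℝ} (hb : b < 1) (z : ℂ) : 0 ≤ ga a b z := by
  unfold ga
  by_cases hz : z ∈ annulus a b
  · rw [indicator_of_mem hz]
    exact (isWeight_s0.1 z (annulus_subset hb hz)).le
  · rw [indicator_of_notMem hz]

lemma integral_ga {a b : ℝ} (ha : 0 ≤ a) (hab : a ≤ b) (hb : b < 1) :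
    ∫ z, ga a b z ∂dA = 2 * (√(L a))⁻¹ - 2 * (√(L b))⁻¹ := by
  have h1 : ∀ z : ℂ, ga a b z = (Icc a b).indicator psi (‖z‖ ^ 2) := by
    intro z
    unfold ga
    by_cases hz : z ∈ annulus a b
    · rw [indicator_of_mem hz, indicator_of_mem (show ‖z‖ ^ 2 ∈ Icc a b from hz)]; rfl
    · rw [indicator_of_notMem hz, indicator_of_notMem (show ¬ ‖z‖ ^ 2 ∈ Icc a b from hz)]
  simp only [h1]
  rw [integral_radial (φ := (Icc a b).indicator psi)]
  · rw [setIntegral_indicator measurableSet_Icc]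
    have h2 : Icc (0 : ℝ) 1 ∩ Icc a b = Icc a b := by
      refine inter_eq_right.2 (Icc_subset_Icc ha hb.le)
    rw [h2, integral_Icc_eq_integral_Ioc, ← intervalIntegral.integral_of_le hab,
      integral_psi ha hab hb]
  · exact integrableOn_psi.aestronglyMeasurable.indicator measurableSet_Icc

lemma maxBergman_lower {a b : ℝ} (hb : b < 1) {z : ℂ}
    (hz : ‖z‖ ^ 2 ≤ a) (ha1 : a < 1) :
    ENNReal.ofReal ((∫ ζ, ga a b ζ ∂dA) / (2 * (1 - ‖z‖ ^ 2)))
      ≤ ‖maxBergmanProj (fun ζ => (s0 ζ : ℂ) * tf a b ζ) z‖ₑ := by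
  have hzd : z ∈ disc := by
    simp only [disc, Metric.mem_ball, dist_zero_right]
    nlinarith [norm_nonneg z]
  have hz1 : ‖z‖ ^ 2 < 1 := (sq_mem hzd).2
  have h1 : maxBergmanProj (fun ζ => (s0 ζ : ℂ) * tf a b ζ) z
      = ((∫ ζ, ga a b ζ / ‖1 - z * conj ζ‖ ^ 2 ∂dA : ℝ) : ℂ) := by
    unfold maxBergmanProj
    rw [← integral_complex_ofReal]
    refine integral_congr_ae (Eventually.of_forall fun ζ => ?_)
    simp only
    push_cast
    congr 1
    unfold tf ga
    by_cases hζ : ζ ∈ annulus a b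
    · rw [indicator_of_mem hζ, indicator_of_mem hζ, mul_one]
    · rw [indicator_of_notMem hζ, indicator_of_notMem hζ]; simp
  have h2 : (∫ ζ, ga a b ζ ∂dA) / (2 * (1 - ‖z‖ ^ 2))
      ≤ ∫ ζ, ga a b ζ / (1 - ‖z‖ ^ 2 * ‖ζ‖ ^ 2) ∂dA := by
    rw [← integral_div]
    refine integral_mono_ae ((integrable_ga a b).div_const _) ?_ ?_
    · -- integrability
      have h3 : ∀ ζ : ℂ, ga a b ζ / (1 - ‖z‖ ^ 2 * ‖ζ‖ ^ 2)
          = (1 - ‖z‖ ^ 2 * ‖ζ‖ ^ 2)⁻¹ * ga a b ζ := by
        intro ζ; rw [div_eq_inv_mul]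
      simp only [h3]
      refine integrable_mono_mul_real (integrable_ga a b) (K := (1 - ‖z‖ ^ 2)⁻¹) ?_ ?_
      · exact Measurable.aestronglyMeasurable (by fun_prop)
      · intro ζ hζ
        have h4 := (sq_mem hζ).2
        have h5 : 0 < 1 - ‖z‖ ^ 2 := by linarith
        have h6 : 1 - ‖z‖ ^ 2 ≤ 1 - ‖z‖ ^ 2 * ‖ζ‖ ^ 2 := by
          have : ‖z‖ ^ 2 * ‖ζ‖ ^ 2 ≤ ‖z‖ ^ 2 * 1 := by gcongr
          linarith
        rw [norm_inv, Real.norm_eq_abs, abs_of_pos (by linarith)]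
        exact inv_anti₀ h5 h6
    · filter_upwards [ae_disc] with ζ hζ
      by_cases hζA : ζ ∈ annulus a b
      · have h4 := (sq_mem hζ).2
        have h5 : 0 < 1 - ‖z‖ ^ 2 := by linarith
        have h6 : 0 < 1 - ‖z‖ ^ 2 * ‖ζ‖ ^ 2 := by
          have : ‖z‖ ^ 2 * ‖ζ‖ ^ 2 ≤ ‖z‖ ^ 2 * 1 := by gcongr
          linarith
        have h7 : 1 - ‖z‖ ^ 2 * ‖ζ‖ ^ 2 ≤ 2 * (1 - ‖z‖ ^ 2) := by
          have h8 : a ≤ ‖ζ‖ ^ 2 := hζA.1
          have h9 : ‖z‖ ^ 2 ≤ ‖ζ‖ ^ 2 := hz.trans h8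
          have h10 : ‖z‖ ^ 2 * (1 - ‖ζ‖ ^ 2) ≤ 1 * (1 - ‖ζ‖ ^ 2) := by
            apply mul_le_mul_of_nonneg_right hz1.le; linarith
          nlinarith
        exact div_le_div_of_nonneg_left (ga_nonneg hb ζ) h6 h7
      · have : ga a b ζ = 0 := by unfold ga; rw [indicator_of_notMem hζA]
        simp [this]
  rw [h1, ← ofReal_norm, Complex.norm_real, Real.norm_eq_abs]
  refine ENNReal.ofReal_le_ofReal (le_trans ?_ (le_abs_self _))
  rw [poisson (ga_inv a b) (integrable_ga a b) hzd]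
  exact h2

lemma lower_total {a b : ℝ} (ha : 0 ≤ a) (ha1 : a < 1) (hb : b < 1) :
    ENNReal.ofReal ((∫ ζ, ga a b ζ ∂dA) ^ 2 / 4 * (-Real.log (1 - a)))
      ≤ ∫⁻ z, ‖maxBergmanProj (fun ζ => (s0 ζ : ℂ) * tf a b ζ) z‖ₑ ^ 2
          * ENNReal.ofReal (w0 z) ∂dA := by
  set m : ℝ := ∫ ζ, ga a b ζ ∂dA with hm
  have hm0 : 0 ≤ m := integral_nonneg fun ζ => ga_nonneg hb ζ
  set φ : ℝ → ℝ := (Iic a).indicator (fun t => m ^ 2 / 4 * (1 - t)⁻¹) with hφ
  have hcont : ContinuousOn (fun t : ℝ => m ^ 2 / 4 * (1 - t)⁻¹) (Icc 0 a) := by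
    refine continuousOn_const.mul (ContinuousOn.inv₀ (by fun_prop) ?_)
    intro t ht
    have : t < 1 := ht.2.trans_lt ha1
    linarith
  have hset : Icc (0 : ℝ) 1 ∩ Iic a = Icc 0 a := by
    ext t
    simp only [mem_inter_iff, mem_Iic, mem_Icc]
    constructor
    · rintro ⟨⟨h, -⟩, h'⟩; exact ⟨h, h'⟩
    · rintro ⟨h, h'⟩; exact ⟨⟨h, by linarith⟩, h'⟩
  have hφint : IntegrableOn φ (Icc 0 1) volume := by
    rw [hφ]
    unfold IntegrableOn
    rw [integrable_indicator_iff measurableSet_Iic, IntegrableOn,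
      Measure.restrict_restrict measurableSet_Iic, inter_comm, hset]
    exact hcont.integrableOn_Icc
  have hφval : ∫ t in Icc (0 : ℝ) 1, φ t = m ^ 2 / 4 * (-Real.log (1 - a)) := by
    rw [hφ, setIntegral_indicator measurableSet_Iic, hset, integral_Icc_eq_integral_Ioc,
      ← intervalIntegral.integral_of_le ha, intervalIntegral.integral_const_mul]
    congr 1
    rw [intervalIntegral.integral_eq_sub_of_hasDerivAt (f := L)]
    · simp [L]
    · intro x hx
      rw [uIcc_of_le ha] at hx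
      exact hasDerivAt_L (hx.2.trans_lt ha1)
    · refine ContinuousOn.intervalIntegrable ?_
      rw [uIcc_of_le ha]
      refine ContinuousOn.inv₀ (by fun_prop) ?_
      intro t ht
      have : t < 1 := ht.2.trans_lt ha1
      linarith
  have hφdA : Integrable (fun z : ℂ => φ (‖z‖ ^ 2)) dA := by
    have h := hφint
    unfold IntegrableOn at h
    rw [← map_sq] at h
    exact (integrable_map_measure h.aestronglyMeasurable measurable_sq.aemeasurable).1 h
  have hval2 : ∫ z, φ (‖z‖ ^ 2) ∂dA = m ^ 2 / 4 * (-Real.log (1 - a)) := by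
    rw [integral_radial hφint.aestronglyMeasurable, hφval]
  rw [← hval2, ofReal_integral_eq_lintegral_ofReal hφdA]
  · refine lintegral_mono_ae ?_
    filter_upwards [ae_disc] with z hz
    by_cases hza : ‖z‖ ^ 2 ≤ a
    · have h1 := maxBergman_lower hb hza ha1
      have h5 : 0 < 1 - ‖z‖ ^ 2 := by linarith
      have h2 : φ (‖z‖ ^ 2) = (m / (2 * (1 - ‖z‖ ^ 2))) ^ 2 * w0 z := by
        rw [hφ, indicator_of_mem (show ‖z‖ ^ 2 ∈ Iic a from hza)]
        unfold w0
        field_simp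
        ring
      rw [h2, ENNReal.ofReal_mul (by positivity), ENNReal.ofReal_pow (by positivity)]
      gcongr
    · have h2 : φ (‖z‖ ^ 2) = 0 := by
        rw [hφ, indicator_of_notMem (show ¬ ‖z‖ ^ 2 ∈ Iic a from hza)]
      rw [h2]; simp
  · filter_upwards [ae_disc] with z hz
    simp only [Pi.zero_apply]
    by_cases hza : ‖z‖ ^ 2 ≤ a
    · rw [hφ, indicator_of_mem (show ‖z‖ ^ 2 ∈ Iic a from hza)]
      have h5 : 0 < 1 - ‖z‖ ^ 2 := by linarith
      positivity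
    · rw [hφ, indicator_of_notMem (show ¬ ‖z‖ ^ 2 ∈ Iic a from hza)]

lemma norm_tf {a b : ℝ} (hb : b < 1) :
    ∫⁻ z, ‖tf a b z‖ₑ ^ 2 * ENNReal.ofReal (s0 z) ∂dA = ENNReal.ofReal (∫ z, ga a b z ∂dA) := by
  rw [ofReal_integral_eq_lintegral_ofReal (integrable_ga a b)
    (Eventually.of_forall fun z => ga_nonneg hb z)]
  refine lintegral_congr fun z => ?_
  unfold tf ga
  by_cases hz : z ∈ annulus a b
  · rw [indicator_of_mem hz, indicator_of_mem hz]; simp
  · rw [indicator_of_notMem hz, indicator_of_notMem hz]; simp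

lemma integral_s0_pos : 0 < ∫ z, s0 z ∂dA := by
  have h1 : ∫ z, ga 0 (1 / 2) z ∂dA ≤ ∫ z, s0 z ∂dA := by
    refine integral_mono_ae (integrable_ga _ _) integrable_s0 ?_
    filter_upwards [ae_disc] with z hz
    unfold ga
    by_cases hz' : z ∈ annulus 0 (1 / 2)
    · rw [indicator_of_mem hz']
    · rw [indicator_of_notMem hz']; exact (isWeight_s0.1 z hz).le
  have h2 : 0 < ∫ z, ga 0 (1 / 2) z ∂dA := by
    rw [integral_ga le_rfl (by norm_num) (by norm_num)]
    have h3 : L 0 = 1 := by simp [L]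
    have h4 : 1 < L (1 / 2) := by
      unfold L
      have : Real.log (1 - 1 / 2) < 0 := Real.log_neg (by norm_num) (by norm_num)
      linarith
    rw [h3, Real.sqrt_one, inv_one]
    have h5 : 1 < √(L (1 / 2)) := by
      rw [Real.lt_sqrt (by norm_num)]; simpa using h4
    have h6 : (√(L (1 / 2)))⁻¹ < 1 := inv_lt_one_of_one_lt₀ h5
    linarith
  linarith

lemma sq_weightedNorm (u : ℂ → ℝ) (f : ℂ → ℂ) :
    (weightedNorm u f) ^ 2 = ∫⁻ z, ‖f z‖ₑ ^ 2 * ENNReal.ofReal (u z) ∂dA := by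
  unfold weightedNorm
  rw [← ENNReal.rpow_natCast, ← ENNReal.rpow_mul]
  norm_num

theorem bounded_bergman : TwoWeightBounded bergmanProj w0 s0 := by
  set S : ℝ := ∫ z, s0 z ∂dA with hS
  refine ⟨Real.toNNReal (√S), fun f hf => ?_⟩
  obtain ⟨hfm, ⟨M, hM⟩, -, -⟩ := hf
  have h1 := bergman_upper s0_inv integrable_s0 (fun z hz => (isWeight_s0.1 z hz).le)
    integral_s0_pos hfm hM
  have h2 : (weightedNorm w0 (bergmanProj fun ζ => (s0 ζ : ℂ) * f ζ)) ^ 2
      ≤ (((Real.toNNReal (√S) : ℝ≥0) : ℝ≥0∞) * weightedNorm s0 f) ^ 2 := by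
    rw [mul_pow, sq_weightedNorm, sq_weightedNorm]
    have h3 : ((Real.toNNReal (√S) : ℝ≥0) : ℝ≥0∞) ^ 2 = ENNReal.ofReal S := by
      change (ENNReal.ofReal (√S)) ^ 2 = _
      rw [← ENNReal.ofReal_pow (Real.sqrt_nonneg S), Real.sq_sqrt integral_s0_pos.le]
    rw [h3]
    exact h1
  exact (ENNReal.pow_le_pow_left_iff (by norm_num)).1 h2

theorem not_bounded_maxBergman : ¬ TwoWeightBounded maxBergmanProj w0 s0 := by
  rintro ⟨C, hC⟩
  have key : ∀ n : ℕ, 1 ≤ n → ((n : ℝ) ^ 2 - 1) ≤ 4 * (C : ℝ) ^ 2 * n := by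
    intro n hn
    have hn1 : (1 : ℝ) ≤ n := by exact_mod_cast hn
    set a : ℝ := 1 - Real.exp (1 - (n : ℝ) ^ 2) with ha
    set b : ℝ := 1 - Real.exp (1 - 4 * (n : ℝ) ^ 2) with hb
    have ha0 : 0 ≤ a := by
      have : Real.exp (1 - (n : ℝ) ^ 2) ≤ 1 := by
        rw [Real.exp_le_one_iff]; nlinarith
      linarith
    have ha1 : a < 1 := by
      have := Real.exp_pos (1 - (n : ℝ) ^ 2); linarith
    have hb1 : b < 1 := by
      have := Real.exp_pos (1 - 4 * (n : ℝ) ^ 2); linarith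
    have hab : a ≤ b := by
      have : Real.exp (1 - 4 * (n : ℝ) ^ 2) ≤ Real.exp (1 - (n : ℝ) ^ 2) :=
        Real.exp_le_exp.2 (by nlinarith)
      linarith
    have hLa : L a = (n : ℝ) ^ 2 := by
      unfold L; rw [ha, sub_sub_cancel, Real.log_exp]; ring
    have hLb : L b = (2 * (n : ℝ)) ^ 2 := by
      unfold L; rw [hb, sub_sub_cancel, Real.log_exp]; ring
    have hm : ∫ z, ga a b z ∂dA = (n : ℝ)⁻¹ := by
      rw [integral_ga ha0 hab hb1, hLa, hLb, Real.sqrt_sq (by positivity),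
        Real.sqrt_sq (by positivity)]
      field_simp
      norm_num
    have h1 := hC (tf a b) (isTest_tf hb1)
    have h2 : (weightedNorm w0 (maxBergmanProj fun ζ => (s0 ζ : ℂ) * tf a b ζ)) ^ 2
        ≤ ((C : ℝ≥0∞) * weightedNorm s0 (tf a b)) ^ 2 :=
      (ENNReal.pow_le_pow_left_iff (by norm_num)).2 h1
    rw [mul_pow, sq_weightedNorm, sq_weightedNorm, norm_tf hb1, hm] at h2
    have h3 := (lower_total ha0 ha1 hb1).trans h2
    rw [hm] at h3
    have hlog : -Real.log (1 - a) = (n : ℝ) ^ 2 - 1 := by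
      rw [ha, sub_sub_cancel, Real.log_exp]; ring
    rw [hlog] at h3
    have h4 : (C : ℝ≥0∞) ^ 2 * ENNReal.ofReal ((n : ℝ)⁻¹)
        = ENNReal.ofReal ((C : ℝ) ^ 2 * (n : ℝ)⁻¹) := by
      rw [ENNReal.ofReal_mul (by positivity), ENNReal.ofReal_pow (by positivity),
        ENNReal.ofReal_coe_nnreal]
    rw [h4, ENNReal.ofReal_le_ofReal_iff (by positivity)] at h3
    have hnpos : (0 : ℝ) < n := by linarith
    have h5 : (n : ℝ)⁻¹ ^ 2 / 4 * ((n : ℝ) ^ 2 - 1) * (4 * (n : ℝ) ^ 2)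
        ≤ (C : ℝ) ^ 2 * (n : ℝ)⁻¹ * (4 * (n : ℝ) ^ 2) := by gcongr
    have h6 : (n : ℝ)⁻¹ ^ 2 / 4 * ((n : ℝ) ^ 2 - 1) * (4 * (n : ℝ) ^ 2) = (n : ℝ) ^ 2 - 1 := by
      field_simp
    have h7 : (C : ℝ) ^ 2 * (n : ℝ)⁻¹ * (4 * (n : ℝ) ^ 2) = 4 * (C : ℝ) ^ 2 * n := by
      field_simp
    rw [h6, h7] at h5
    exact h5
  obtain ⟨n, hn⟩ := exists_nat_gt (4 * (C : ℝ) ^ 2 + 1)
  have hC0 : 0 ≤ 4 * (C : ℝ) ^ 2 := by positivity
  have hn1 : (1 : ℝ) < n := by linarith
  have hn2 : 1 ≤ n := by exact_mod_cast hn1.le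
  have h1 := key n hn2
  nlinarith

/-- Main result: an explicit pair of radial weights for which the Bergman projection is bounded
and the maximal Bergman projection is not. -/
theorem result :
    ∃ w σ : ℂ → ℝ,
      (∀ z ∈ disc, w z = 1 - ‖z‖ ^ 2) ∧
      (∀ z ∈ disc, σ z
        = 1 / ((1 - ‖z‖ ^ 2) * (1 - Real.log (1 - ‖z‖ ^ 2)) ^ (3 / 2 : ℝ))) ∧
      IsWeight w ∧ IsWeight σ ∧
      TwoWeightBounded bergmanProj w σ ∧ ¬ TwoWeightBounded maxBergmanProj w σ := by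
  refine ⟨w0, s0, fun z _ => rfl, ?_, isWeight_w0, isWeight_s0, bounded_bergman,
    not_bounded_maxBergman⟩
  intro z hz
  have h1 : 0 < L (‖z‖ ^ 2) := lt_of_lt_of_le one_pos (one_le_L (sq_mem hz).1 (sq_mem hz).2)
  have h2 : (L (‖z‖ ^ 2)) ^ (3 / 2 : ℝ) = L (‖z‖ ^ 2) * √(L (‖z‖ ^ 2)) := by
    rw [Real.sqrt_eq_rpow, show (3 / 2 : ℝ) = 1 + 1 / 2 by norm_num, Real.rpow_add h1,
      Real.rpow_one]
  change psi (‖z‖ ^ 2) = 1 / ((1 - ‖z‖ ^ 2) * (L (‖z‖ ^ 2)) ^ (3 / 2 : ℝ))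
  rw [h2, one_div]
  rfl

end Pool.Agent.Results.MP_5b3867_an.RadialWeights
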